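import Mathlib
import Pool.Agent.R578.TS.P1
import Pool.Agent.R578.TS.P2
import Pool.Agent.R578.TS.P3
import Pool.Agent.R578.TS.P4
import Pool.Agent.R578.TS.P5
import Pool.Agent.R578.TS.P6

/-!
# Two-sided gamma positivity for even and odd signed permutations (MP_12caf3_co)

The question has a positive answer: for every even `n > 0` and each sign `e` the two-sided type B
descent polynomial of the signed permutations whose Coxeter length has parity `e` is a nonnegative
combination of the polynomials `(st)^i (s+t)^j (1+st)^(n-2i-j)`.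

Proof: (1) `∑_w C(k+n-ides,n) C(l+n-des,n)` is `multichoose (2kl+k+l+1) n`, and with the sign
character it is the coefficient of `x^n` in `(1-x)^(-(k+1)(l+1)) (1+x)^(-kl)`; hence the numerators
for even and odd elements are the sums over even, respectively odd, `j` of the two-sided numerators of
`mc(kl, j) mc((k+1)(l+1), n-j)`; (2) for `2j ≤ n` such a numerator is `A + B` with `A`, `B`
nonnegative combinations of `(st)^i (s+t)^m (1+st)^q` with `2i+m+q = n` and `n-1` (induction with a
support condition), and adding the reversed polynomial (`n-j` instead of `j`) gives `2A + (1+st)B`.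

The pieces P1, P2, P3 were formalised by helper668, P4 by helper74.
-/

namespace Pool.Agent.Results.MP_12caf3_co.TwoSidedGammaPositive

open Pool.Agent.R578.SE Pool.Agent.R578.TS Finset

/-- `sinv w` is the inverse of the signed permutation `w`: `w` maps `i+1` to `±(v+1)` if and only if
`sinv w` maps `v+1` to `±(i+1)` with the same sign. -/
theorem sinv_spec {n : ℕ} (w : SP n) (i v : Fin n) :
    (ent w i = (v : ℤ) + 1 ↔ ent (sinv w) v = (i : ℤ) + 1) ∧
    (ent w i = -((v : ℤ) + 1) ↔ ent (sinv w) v = -((i : ℤ) + 1)) := by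
  have key : (w.1 i = v) ↔ (w.1⁻¹ v = i) := by
    rw [Equiv.Perm.inv_eq_iff_eq]
    exact eq_comm
  have e3 : w.1 (w.1⁻¹ v) = v := by simp
  unfold ent Pool.Agent.R578.SE.val sinv
  simp only [e3]
  by_cases h : w.1 i = v
  · have h' := key.1 h
    rw [h', h]
    by_cases hs : w.2 v = true
    · rw [if_pos hs, if_pos hs]
      refine ⟨⟨fun h2 => by omega, fun h2 => by omega⟩, ⟨fun _ => rfl, fun _ => rfl⟩⟩
    · rw [if_neg hs, if_neg hs]
      refine ⟨⟨fun _ => rfl, fun _ => rfl⟩, ⟨fun h2 => by omega, fun h2 => by omega⟩⟩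
  · have h' : w.1⁻¹ v ≠ i := fun h2 => h (key.2 h2)
    have h3 : ((w.1 i : Fin n) : ℕ) ≠ (v : ℕ) := fun h2 => h (Fin.ext h2)
    have h4 : ((w.1⁻¹ v : Fin n) : ℕ) ≠ (i : ℕ) := fun h2 => h' (Fin.ext h2)
    constructor
    · constructor <;> intro h2 <;> exfalso <;> split_ifs at h2 <;> omega
    · constructor <;> intro h2 <;> exfalso <;> split_ifs at h2 <;> omega

/-- Two-sided gamma positivity of `TSB_n^±` for all even `n > 0`. -/
theorem result :
    (∀ (n : ℕ) (w : SP n) (i v : Fin n),
      (ent w i = (v : ℤ) + 1 ↔ ent (sinv w) v = (i : ℤ) + 1) ∧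
      (ent w i = -((v : ℤ) + 1) ↔ ent (sinv w) v = -((i : ℤ) + 1))) ∧
    ∀ n : ℕ, 0 < n → Even n → ∀ e : ℤˣ, ∃ γ : ℕ → ℕ → ℝ, (∀ i j, 0 ≤ γ i j) ∧
      ∀ s t : ℝ,
        ∑ w ∈ univ.filter (fun w : SP n => (-1 : ℤˣ) ^ lenB w = e),
          t ^ desB w * s ^ desB (sinv w) =
        ∑ i ∈ range (n + 1), ∑ j ∈ range (n + 1 - 2 * i),
          γ i j * (s * t) ^ i * (s + t) ^ j * (1 + s * t) ^ (n - 2 * i - j) :=
  ⟨fun _ w i v => sinv_spec w i v, fun n _ hn e =>
    final stmLL stmDes stmEp stmCard stmSign stmVand stmMcNat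
      (stmAB stmReflA stmReflB stmQV stmQK stmQrefl) stmReflA stmReflB stmQrefl n hn e⟩

end Pool.Agent.Results.MP_12caf3_co.TwoSidedGammaPositive
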